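import Pool.Agent.MP_0e6a9f_ag.H19.Spec

/-! Row BASE: the product of two canonical algebras carries the base data. -/

open MulOpposite

noncomputable section
namespace FMD
open _root_.FMD.DGR _root_.FMD.Bimod

theorem base : CpStmt → KsStmt → Kun1Stmt → Kun2Stmt → Kun3Stmt → BaseStmt := by
  intro hCp hKs h1 h2 h3 K _ _ s t D D' hs ht hs' ht'
  have ne : ∀ (E : Derivation ℤ K K) (p : K), E p = 1 → p ≠ 0 ∧ p ≠ 1 := fun E p h =>
    ⟨fun e => by rw [e, map_zero] at h; exact zero_ne_one h,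
      fun e => by rw [e, E.map_one_eq_zero] at h; exact zero_ne_one h⟩
  obtain ⟨P⟩ := hCp K s (ne D s hs).1 (ne D s hs).2
  obtain ⟨P'⟩ := hCp K t (ne D' t ht').1 (ne D' t ht').2
  have d0 : Deg0 (Cp s) := can_deg0 _
  have d0' : Deg0 (Cp t) := can_deg0 _
  have dt : Deg0 (tens K (Cp s) (Cp t)) := d0.tens d0'
  obtain ⟨a1, a2, a3⟩ := h1 K _ _ d0 d0' P.R P'.R
  obtain ⟨b1, b2, b3⟩ := h3 K _ _ d0 d0' s t P P'
  obtain ⟨L⟩ := P.lift D
  obtain ⟨L'⟩ := P'.lift D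
  obtain ⟨M⟩ := P.lift D'
  obtain ⟨M'⟩ := P'.lift D'
  rw [hs, one_smul] at L
  rw [ht, zero_smul] at L'
  rw [hs', zero_smul] at M
  rw [ht', one_smul] at M'
  obtain ⟨c1, ⟨c2⟩⟩ := h2 K _ _ D _ _ _ P.k_mem _ (zero_mem _) L L'
  obtain ⟨e1, ⟨e2⟩⟩ := h2 K _ _ D' _ _ _ (zero_mem _) _ P'.k_mem M M'
  obtain ⟨f1, ⟨S⟩⟩ := hKs K _ dt D _ _ c1 c2
  obtain ⟨g1, ⟨T⟩⟩ := hKs K _ dt D' _ _ e1 e2
  exact ⟨{ R := ⟨_, _, a1, a2, a3⟩
           neg := fun i => add_nonpos (P.neg i.1) (P'.neg i.2)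
           h0 := b1
           h3 := b2
           D := D
           D' := D'
           κ := boxK P.k 0
           κ' := boxK 0 P'.k
           κ_mem := c1
           κ'_mem := e1
           κ_d := f1
           κ'_d := g1
           S := S
           T := T
           nb := b3 }⟩

end FMD
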